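import Pool.Agent.H35.CF.Ins
import Pool.Agent.H35.CF.Cnt

/-!
# [H1 BD BAD] from the box lemma to sums over configurations with a Lipschitz cut-off

* `ixx`: the index of the interval of a grid. `lip`: the cut-off is almost constant on a box. `rev`: the reverse insertion inequality.
* `bad`: a sum over configurations with a weight `Φ` of the counts of the labels, a Lipschitz cut-off of the norm and a function `F`: small if the sums of
  `F` over boxes of `m` variable places are small on average over the other places.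
-/

set_option autoImplicit false

open scoped NumberField
open NumberField IsDedekindDomain H63.MA H57.AN H35.CF
open scoped Classical

noncomputable section

namespace H1.BD

/-- the index of the interval `(g j, g (j + 1)]` containing `x` -/
def ixx (g : ℕ → ℝ) (x : ℝ) : ℕ := sInf {j | x ≤ g (j + 1)}

theorem ixx_spec (g : ℕ → ℝ) (x : ℝ) (J : ℕ) (h0 : g 0 < x) (hJ : x ≤ g J) :
    ixx g x < J ∧ g (ixx g x) < x ∧ x ≤ g (ixx g x + 1) := by
  have hJ0 : J ≠ 0 := by
    rintro rfl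
    linarith
  have hmem : J - 1 ∈ {j | x ≤ g (j + 1)} := by
    show x ≤ g (J - 1 + 1)
    rwa [Nat.sub_add_cancel (Nat.one_le_iff_ne_zero.2 hJ0)]
  have h1 : ixx g x ≤ J - 1 := Nat.sInf_le hmem
  have h2 : x ≤ g (ixx g x + 1) := Nat.sInf_mem (s := {j | x ≤ g (j + 1)}) ⟨_, hmem⟩
  refine ⟨by omega, ?_, h2⟩
  by_contra h3
  push Not at h3
  rcases Nat.eq_zero_or_pos (ixx g x) with h4 | h4
  · rw [h4] at h3
    linarith
  · have h5 : ixx g x - 1 ∈ {j | x ≤ g (j + 1)} := by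
      show x ≤ g (ixx g x - 1 + 1)
      rwa [Nat.sub_add_cancel h4]
    have h6 : ixx g x ≤ ixx g x - 1 := Nat.sInf_le h5
    omega

theorem ixx_eq (g : ℕ → ℝ) (hg : Monotone g) (x : ℝ) (j : ℕ) (h1 : g j < x)
    (h2 : x ≤ g (j + 1)) : ixx g x = j := by
  obtain ⟨h3, h4, h5⟩ := ixx_spec g x (j + 1) (lt_of_le_of_lt (hg (Nat.zero_le j)) h1) h2
  rcases Nat.lt_or_ge (ixx g x) j with h6 | h6
  · have h7 : g (ixx g x + 1) ≤ g j := hg h6
    linarith
  · omega

theorem pow_one_add (δ : ℝ) (h0 : 0 ≤ δ) (h1 : δ ≤ 1) (m : ℕ) :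
    (1 + δ) ^ m ≤ 1 + (2 ^ m - 1) * δ := by
  induction m with
  | zero => simp
  | succ m ih =>
    have h2 : (1 : ℝ) ≤ 2 ^ m := one_le_pow₀ (by norm_num)
    rw [pow_succ, pow_succ]
    nlinarith [mul_le_mul_of_nonneg_right ih (by linarith : (0 : ℝ) ≤ 1 + δ),
      mul_nonneg (sub_nonneg.2 h2) (mul_nonneg h0 (sub_nonneg.2 h1))]

/-- the cut-off is almost constant on a box -/
theorem lip (ψ : ℝ → ℝ) (h0 : ∀ t, 2 ≤ t → ψ t = 0) (h1 : ∀ s t, |ψ s - ψ t| ≤ |s - t|)
    (δ : ℝ) (hδ : 0 ≤ δ) (hδ1 : δ ≤ 1) (m : ℕ) (t t' : ℝ) (ht' : 0 ≤ t') (ht : t' ≤ t)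
    (htt : t ≤ (1 + δ) ^ m * t') :
    |ψ t - ψ t'| ≤ if t ≤ 2 ^ (m + 1) then 2 ^ (m + 1) * δ else 0 := by
  have h2 : (1 + δ) ^ m ≤ 1 + (2 ^ m - 1) * δ := pow_one_add δ hδ hδ1 m
  have h3 : (1 : ℝ) ≤ 2 ^ m := one_le_pow₀ (by norm_num)
  have h4 : (1 + δ) ^ m ≤ 2 ^ m := pow_le_pow_left₀ (by linarith) (by linarith) m
  by_cases h : t' ≤ 2
  · have h5 : t ≤ 2 ^ (m + 1) := by
      refine htt.trans ?_
      rw [pow_succ]
      exact mul_le_mul h4 h ht' (by positivity)
    rw [if_pos h5]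
    refine (h1 t t').trans ?_
    rw [abs_of_nonneg (sub_nonneg.2 ht)]
    have h6 : t - t' ≤ ((2 ^ m - 1) * δ) * t' := by
      have h7 := mul_le_mul_of_nonneg_right h2 ht'
      linarith
    have h7 : ((2 ^ m - 1) * δ) * t' ≤ ((2 ^ m - 1) * δ) * 2 :=
      mul_le_mul_of_nonneg_left h (mul_nonneg (by linarith) hδ)
    rw [pow_succ]
    nlinarith
  · push Not at h
    rw [h0 t (by linarith), h0 t' h.le, sub_zero, abs_zero]
    split_ifs
    · positivity
    · exact le_rfl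

section comb

variable {V Λ : Type}

theorem sp_up (Z : Finset V) (W : V → Prop) {m : ℕ} (c : V → Option Λ) (q : Fin m → V)
    (l : Fin m → Λ) (hq : q ∈ Fr Z W c m) :
    sp Z (up c q l) = sp Z c ∪ Finset.univ.image q ∧ Disjoint (sp Z c) (Finset.univ.image q) := by
  rw [mem_fr] at hq
  constructor
  · ext v
    rw [mem_sp, Finset.mem_union, mem_sp, Finset.mem_image]
    by_cases h : ∃ k, q k = v
    · obtain ⟨k, rfl⟩ := h
      rw [up_of c q l hq.2 k]
      exact ⟨fun _ => Or.inr ⟨k, Finset.mem_univ _, rfl⟩, fun _ => ⟨(hq.1 k).1, Option.some_ne_none _⟩⟩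
    · rw [up_ne c q l v fun k hk => h ⟨k, hk⟩]
      constructor
      · exact fun h1 => Or.inl h1
      · rintro (h1 | ⟨k, -, hk⟩)
        · exact h1
        · exact absurd ⟨k, hk⟩ h
  · rw [Finset.disjoint_left]
    intro v hv h
    rw [mem_sp] at hv
    rw [Finset.mem_image] at h
    obtain ⟨k, -, rfl⟩ := h
    exact hv.2 (hq.1 k).2.2

theorem sp_up_card (Z : Finset V) (W : V → Prop) {m : ℕ} (c : V → Option Λ) (q : Fin m → V)
    (l : Fin m → Λ) (hq : q ∈ Fr Z W c m) : (sp Z (up c q l)).card = (sp Z c).card + m := by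
  obtain ⟨h1, h2⟩ := sp_up Z W c q l hq
  rw [h1, Finset.card_union_of_disjoint h2, Finset.card_image_of_injective _ (mem_fr.1 hq).2,
    Finset.card_univ, Fintype.card_fin]

theorem sp_up_prod {M : Type} [CommMonoid M] (Z : Finset V) (W : V → Prop) {m : ℕ}
    (c : V → Option Λ) (q : Fin m → V) (l : Fin m → Λ) (hq : q ∈ Fr Z W c m) (f : V → M) :
    ∏ v ∈ sp Z (up c q l), f v = (∏ v ∈ sp Z c, f v) * ∏ k, f (q k) := by
  obtain ⟨h1, h2⟩ := sp_up Z W c q l hq
  rw [h1, Finset.prod_union h2, Finset.prod_image fun i _ j _ h => (mem_fr.1 hq).2 h]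

theorem up_mem [Fintype Λ] (Z : Finset V) (W : V → Prop) {m : ℕ} (c : V → Option Λ)
    (q : Fin m → V) (l : Fin m → Λ) (hc : c ∈ Cf Z Λ) (hq : q ∈ Fr Z W c m) :
    up c q l ∈ Cf Z Λ := by
  rw [mem_cf] at hc ⊢
  rw [mem_fr] at hq
  intro v hv
  rw [up_ne c q l v]
  · exact hc v hv
  · rintro k rfl
    exact hv (hq.1 k).1

/-- the reverse insertion inequality -/
theorem rev [Fintype Λ] (Z : Finset V) (W : V → Prop) (m : ℕ) (l : Fin m → Λ)
    (G : (V → Option Λ) → ℝ) (hG : ∀ c, 0 ≤ G c) :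
    ∑ c ∈ Cf Z Λ, ∑ q ∈ Fr Z W c m, G (up c q l) ≤
      ∑ c ∈ Cf Z Λ, ((sp Z c).card : ℝ) ^ m * G c := by
  have h1 : ∀ c : V → Option Λ, ((sp Z c).card : ℝ) ^ m * G c =
      ∑ _q ∈ Fintype.piFinset fun _ : Fin m => sp Z c, G c := by
    intro c
    rw [Finset.sum_const, nsmul_eq_mul, Fintype.card_piFinset, Finset.prod_const,
      Finset.card_univ, Fintype.card_fin]
    push_cast
    rfl
  rw [Finset.sum_congr rfl fun c _ => h1 c, Finset.sum_sigma', Finset.sum_sigma']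
  have hinj : Set.InjOn (fun a : (_ : V → Option Λ) × (Fin m → V) =>
      (⟨up a.1 a.2 l, a.2⟩ : (_ : V → Option Λ) × (Fin m → V)))
      ((Cf Z Λ).sigma fun c => Fr Z W c m) := by
    rintro ⟨c, q⟩ ha ⟨c', q'⟩ ha' h
    simp only [Finset.coe_sigma, Set.mem_sigma_iff, Finset.mem_coe, mem_fr] at ha ha'
    simp only [Sigma.mk.injEq, heq_eq_eq] at h
    obtain ⟨h2, rfl⟩ := h
    congr 1
    funext v
    by_cases hv : ∃ k, q k = v
    · obtain ⟨k, rfl⟩ := hv
      rw [(ha.2.1 k).2.2, (ha'.2.1 k).2.2]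
    · have h3 := congrFun h2 v
      rw [up_ne c q l v fun k hk => hv ⟨k, hk⟩, up_ne c' q l v fun k hk => hv ⟨k, hk⟩] at h3
      exact h3
  calc ∑ a ∈ (Cf Z Λ).sigma fun c => Fr Z W c m, G (up a.1 a.2 l)
      = ∑ a ∈ ((Cf Z Λ).sigma fun c => Fr Z W c m).image
          (fun a : (_ : V → Option Λ) × (Fin m → V) =>
            (⟨up a.1 a.2 l, a.2⟩ : (_ : V → Option Λ) × (Fin m → V))), G a.1 :=
        (Finset.sum_image (f := fun a : (_ : V → Option Λ) × (Fin m → V) => G a.1) hinj).symm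
    _ ≤ _ := by
        refine Finset.sum_le_sum_of_subset_of_nonneg ?_ fun a _ _ => hG a.1
        intro a ha
        rw [Finset.mem_image] at ha
        obtain ⟨⟨c, q⟩, h2, rfl⟩ := ha
        rw [Finset.mem_sigma] at h2
        rw [Finset.mem_sigma]
        refine ⟨up_mem Z W c q l h2.1 h2.2, ?_⟩
        rw [Fintype.mem_piFinset]
        intro k
        show q k ∈ sp Z (up c q l)
        rw [(sp_up Z W c q l h2.2).1, Finset.mem_union]
        exact Or.inr (Finset.mem_image_of_mem q (Finset.mem_univ k))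

end comb

section main

variable (K : Type) [Field K] [NumberField K]

/-- the number of intervals -/
theorem grid (Y ℓ δ T : ℝ) (hY : 3 ≤ Y) (hℓ : ℓ = Real.log Y) (hδ : 0 < δ) (hδ1 : δ ≤ 1) (hT : 1 ≤ T) :
    ∃ J : ℕ, (J : ℝ) ≤ 5 * ℓ / δ ∧ 2 * Y ≤ T * (1 + δ) ^ J := by
  have hY0 : (0 : ℝ) < Y := by linarith
  have hl1 : 1 ≤ ℓ := by
    rw [hℓ, Real.le_log_iff_exp_le hY0]
    exact (Real.exp_one_lt_d9.le.trans (by norm_num)).trans hY
  have h2Y : Real.log (2 * Y) ≤ 2 * ℓ := by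
    rw [Real.log_mul (by norm_num) hY0.ne', ← hℓ]
    have h : Real.log 2 ≤ 1 := by
      have := Real.log_two_lt_d9
      linarith
    linarith
  have h2Y0 : 0 ≤ Real.log (2 * Y) := Real.log_nonneg (by linarith)
  refine ⟨⌈2 * Real.log (2 * Y) / δ⌉₊, ?_, ?_⟩
  · have h1 := Nat.ceil_lt_add_one (div_nonneg (mul_nonneg (by norm_num : (0 : ℝ) ≤ 2) h2Y0) hδ.le)
    have h2 : 2 * Real.log (2 * Y) / δ ≤ 4 * ℓ / δ := by
      apply div_le_div_of_nonneg_right _ hδ.le
      linarith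
    have h3 : 1 ≤ ℓ / δ := by
      rw [le_div_iff₀ hδ]
      linarith
    have h4 : 5 * ℓ / δ = 4 * ℓ / δ + ℓ / δ := by ring
    rw [h4]
    linarith
  · have h1 : 2 * Real.log (2 * Y) / δ ≤ (⌈2 * Real.log (2 * Y) / δ⌉₊ : ℝ) := Nat.le_ceil _
    have h2 : δ / 2 ≤ Real.log (1 + δ) := by
      have h3 := Real.one_sub_inv_le_log_of_pos (by linarith : (0 : ℝ) < 1 + δ)
      have h4 : δ / 2 ≤ 1 - (1 + δ)⁻¹ := by
        have h5 : 1 - (1 + δ)⁻¹ = δ / (1 + δ) := by
          field_simp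
          ring
        rw [h5]
        exact div_le_div_of_nonneg_left hδ.le (by linarith) (by linarith)
      linarith
    have h3 : Real.log (2 * Y) ≤ (⌈2 * Real.log (2 * Y) / δ⌉₊ : ℝ) * Real.log (1 + δ) := by
      have h4 : Real.log (2 * Y) = (2 * Real.log (2 * Y) / δ) * (δ / 2) := by
        field_simp
      calc Real.log (2 * Y) = (2 * Real.log (2 * Y) / δ) * (δ / 2) := h4
        _ ≤ (⌈2 * Real.log (2 * Y) / δ⌉₊ : ℝ) * Real.log (1 + δ) :=
          mul_le_mul h1 h2 (by positivity) (Nat.cast_nonneg _)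
    have h5 : 2 * Y ≤ (1 + δ) ^ ⌈2 * Real.log (2 * Y) / δ⌉₊ := by
      rw [← Real.log_le_log_iff (by linarith) (by positivity), Real.log_pow]
      exact h3
    refine h5.trans ?_
    exact le_mul_of_one_le_left (by positivity) hT

/-- the sum over the variable places for one configuration -/
theorem one_conf (Λ : Type) [Fintype Λ] (m : ℕ) (Z : Finset (Pl K)) (W : Pl K → Prop) (Y T δ : ℝ)
    (hY : 3 ≤ Y) (hT : 1 ≤ T) (hδ : 0 < δ) (hδ1 : δ ≤ 1) (hW : ∀ v, W v → T < nm v) (J : ℕ)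
    (hJ : 2 * Y ≤ T * (1 + δ) ^ J)
    (l : Fin m → Λ) (ψ : ℝ → ℝ) (hψ1 : ∀ t, |ψ t| ≤ 1) (hψ2 : ∀ t, 2 ≤ t → ψ t = 0)
    (hψ3 : ∀ s t, |ψ s - ψ t| ≤ |s - t|) (F : (Pl K → Option Λ) → ℂ) (c : Pl K → Option Λ) :
    ‖∑ q ∈ Fr Z W c m, ((ψ (nr (sp Z (up c q l)) / Y) : ℝ) : ℂ) * F (up c q l)‖ ≤
      (∑ j ∈ (Fintype.piFinset fun _ : Fin m => Finset.range J).filter
          (fun j => nr (sp Z c) * ∏ k, T * (1 + δ) ^ j k ≤ 2 * Y),
        ‖∑ q ∈ (Fr Z W c m).filter (fun q => ∀ k, T * (1 + δ) ^ j k < nm (q k) ∧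
          (nm (q k) : ℝ) ≤ T * (1 + δ) ^ (j k + 1)), F (up c q l)‖) +
      2 ^ (m + 1) * δ * ∑ q ∈ Fr Z W c m,
        (if nr (sp Z (up c q l)) ≤ 2 ^ (m + 1) * Y then ‖F (up c q l)‖ else 0) := by
  have hY0 : (0 : ℝ) < Y := by linarith
  obtain ⟨g, hg⟩ : ∃ g : ℕ → ℝ, g = fun j => T * (1 + δ) ^ j := ⟨_, rfl⟩
  have hg' : ∀ j, T * (1 + δ) ^ j = g j := fun j => by rw [hg]
  have hgm : Monotone g := by
    rw [hg]
    intro i j hij
    exact mul_le_mul_of_nonneg_left (pow_le_pow_right₀ (by linarith) hij) (by linarith)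
  have hg1 : ∀ j, 1 ≤ g j := by
    intro j
    rw [← hg']
    exact one_le_mul_of_one_le_of_one_le hT (one_le_pow₀ (by linarith))
  have hgs : ∀ j, g (j + 1) = (1 + δ) * g j := by
    intro j
    rw [← hg', ← hg', pow_succ]
    ring
  have hg0 : g 0 = T := by
    rw [← hg', pow_zero, mul_one]
  simp only [hg']
  rw [hg'] at hJ
  -- restriction to the places of the grid
  obtain ⟨S, hS⟩ : ∃ S, S = (Fr Z W c m).filter fun q => ∀ k, (nm (q k) : ℝ) ≤ g J := ⟨_, rfl⟩
  have hnr : ∀ q ∈ Fr Z W c m, nr (sp Z (up c q l)) = nr (sp Z c) * ∏ k, (nm (q k) : ℝ) := by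
    intro q hq
    exact sp_up_prod Z W c q l hq fun v => (nm v : ℝ)
  have hn1 : 1 ≤ nr (sp Z c) := one_le_nr _
  have hnmq : ∀ v : Pl K, (1 : ℝ) ≤ nm v := fun v => by exact_mod_cast (one_lt_nm v).le
  have h1 : ∑ q ∈ Fr Z W c m, ((ψ (nr (sp Z (up c q l)) / Y) : ℝ) : ℂ) * F (up c q l) =
      ∑ q ∈ S, ((ψ (nr (sp Z (up c q l)) / Y) : ℝ) : ℂ) * F (up c q l) := by
    rw [hS]
    refine (Finset.sum_subset (Finset.filter_subset _ _) ?_).symm
    intro q hq hq'
    rw [Finset.mem_filter] at hq'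
    push Not at hq'
    obtain ⟨k, hk⟩ := hq' hq
    have h2 : (nm (q k) : ℝ) ≤ ∏ k, (nm (q k) : ℝ) := by
      rw [← Finset.mul_prod_erase Finset.univ (fun k => (nm (q k) : ℝ)) (Finset.mem_univ k)]
      refine le_mul_of_one_le_right (Nat.cast_nonneg _) ?_
      exact Finset.one_le_prod fun i _ => hnmq _
    have h3 : 2 ≤ nr (sp Z (up c q l)) / Y := by
      rw [le_div_iff₀ hY0, hnr q hq]
      have h4 : (1 : ℝ) * (2 * Y) ≤ nr (sp Z c) * ∏ k, (nm (q k) : ℝ) :=
        mul_le_mul hn1 (by linarith) (by positivity) (by linarith)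
      linarith
    rw [hψ2 _ h3, Complex.ofReal_zero, zero_mul]
  have hSq : ∀ q ∈ S, q ∈ Fr Z W c m ∧ ∀ k, ixx g (nm (q k)) < J ∧ g (ixx g (nm (q k))) < nm (q k) ∧
      (nm (q k) : ℝ) ≤ g (ixx g (nm (q k)) + 1) := by
    intro q hq
    rw [hS, Finset.mem_filter] at hq
    refine ⟨hq.1, fun k => ixx_spec g _ J ?_ (hq.2 k)⟩
    rw [hg0]
    exact hW _ ((mem_fr.1 hq.1).1 k).2.1
  -- comparison with the corner of the box
  have hcorner : ∀ q ∈ S, |ψ (nr (sp Z (up c q l)) / Y) -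
      ψ (nr (sp Z c) * (∏ k, g (ixx g (nm (q k)))) / Y)| ≤
      if nr (sp Z (up c q l)) ≤ 2 ^ (m + 1) * Y then 2 ^ (m + 1) * δ else 0 := by
    intro q hq
    obtain ⟨hq1, hq2⟩ := hSq q hq
    have h2 := lip ψ hψ2 hψ3 δ hδ.le hδ1 m (nr (sp Z (up c q l)) / Y)
      (nr (sp Z c) * (∏ k, g (ixx g (nm (q k)))) / Y) ?_ ?_ ?_
    · have h3 : (nr (sp Z (up c q l)) / Y ≤ 2 ^ (m + 1)) ↔
          (nr (sp Z (up c q l)) ≤ 2 ^ (m + 1) * Y) := div_le_iff₀ hY0
      simp only [h3] at h2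
      exact h2
    · refine div_nonneg (mul_nonneg (by linarith) ?_) hY0.le
      exact Finset.prod_nonneg fun k _ => by linarith [hg1 (ixx g (nm (q k)))]
    · rw [hnr q hq1]
      refine div_le_div_of_nonneg_right ?_ hY0.le
      refine mul_le_mul_of_nonneg_left ?_ (by linarith)
      refine Finset.prod_le_prod (fun k _ => by linarith [hg1 (ixx g (nm (q k)))]) fun k _ => ?_
      exact (hq2 k).2.1.le
    · rw [hnr q hq1, ← mul_div_assoc]
      refine div_le_div_of_nonneg_right ?_ hY0.le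
      have h3 : ∏ k, (nm (q k) : ℝ) ≤ (1 + δ) ^ m * ∏ k, g (ixx g (nm (q k))) := by
        calc ∏ k, (nm (q k) : ℝ) ≤ ∏ k, ((1 + δ) * g (ixx g (nm (q k)))) := by
              refine Finset.prod_le_prod (fun k _ => Nat.cast_nonneg _) fun k _ => ?_
              rw [← hgs]
              exact (hq2 k).2.2
          _ = (1 + δ) ^ m * ∏ k, g (ixx g (nm (q k))) := by
              rw [Finset.prod_mul_distrib, Finset.prod_const, Finset.card_univ, Fintype.card_fin]
      calc nr (sp Z c) * ∏ k, (nm (q k) : ℝ)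
          ≤ nr (sp Z c) * ((1 + δ) ^ m * ∏ k, g (ixx g (nm (q k)))) :=
            mul_le_mul_of_nonneg_left h3 (by linarith)
        _ = (1 + δ) ^ m * (nr (sp Z c) * ∏ k, g (ixx g (nm (q k)))) := by ring
  -- the main part
  have hmain : ∑ q ∈ S, ((ψ (nr (sp Z c) * (∏ k, g (ixx g (nm (q k)))) / Y) : ℝ) : ℂ) *
      F (up c q l) = ∑ j ∈ Fintype.piFinset fun _ : Fin m => Finset.range J,
        ((ψ (nr (sp Z c) * (∏ k, g (j k)) / Y) : ℝ) : ℂ) *
          ∑ q ∈ (Fr Z W c m).filter (fun q => ∀ k, g (j k) < nm (q k) ∧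
            (nm (q k) : ℝ) ≤ g (j k + 1)), F (up c q l) := by
    have hmap : ∀ q ∈ S, (fun k => ixx g (nm (q k))) ∈
        Fintype.piFinset fun _ : Fin m => Finset.range J := by
      intro q hq
      rw [Fintype.mem_piFinset]
      intro k
      rw [Finset.mem_range]
      exact ((hSq q hq).2 k).1
    rw [← Finset.sum_fiberwise_of_maps_to hmap]
    refine Finset.sum_congr rfl fun j hj => ?_
    rw [Finset.mul_sum]
    have h2 : S.filter (fun q => (fun k => ixx g (nm (q k))) = j) =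
        (Fr Z W c m).filter (fun q => ∀ k, g (j k) < nm (q k) ∧ (nm (q k) : ℝ) ≤ g (j k + 1)) := by
      ext q
      rw [Finset.mem_filter, Finset.mem_filter]
      constructor
      · rintro ⟨hq, rfl⟩
        obtain ⟨hq1, hq2⟩ := hSq q hq
        exact ⟨hq1, fun k => (hq2 k).2⟩
      · rintro ⟨hq, hq2⟩
        refine ⟨?_, ?_⟩
        · rw [hS, Finset.mem_filter]
          refine ⟨hq, fun k => (hq2 k).2.trans (hgm ?_)⟩
          rw [Fintype.mem_piFinset] at hj
          have h3 := Finset.mem_range.1 (hj k)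
          omega
        · funext k
          exact ixx_eq g hgm _ _ (hq2 k).1 (hq2 k).2
    rw [← h2]
    refine Finset.sum_congr rfl fun q hq => ?_
    rw [Finset.mem_filter] at hq
    rw [← hq.2]
  have hsplit : ∑ q ∈ S, ((ψ (nr (sp Z (up c q l)) / Y) : ℝ) : ℂ) * F (up c q l) =
      ∑ q ∈ S, ((ψ (nr (sp Z c) * (∏ k, g (ixx g (nm (q k)))) / Y) : ℝ) : ℂ) * F (up c q l) +
      ∑ q ∈ S, (((ψ (nr (sp Z (up c q l)) / Y) -
        ψ (nr (sp Z c) * (∏ k, g (ixx g (nm (q k)))) / Y) : ℝ) : ℂ)) * F (up c q l) := by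
    rw [← Finset.sum_add_distrib]
    refine Finset.sum_congr rfl fun q _ => ?_
    rw [Complex.ofReal_sub]
    ring
  rw [h1, hsplit]
  refine (norm_add_le _ _).trans (add_le_add ?_ ?_)
  · rw [hmain]
    refine (norm_sum_le _ _).trans ?_
    rw [Finset.sum_filter]
    refine Finset.sum_le_sum fun j _ => ?_
    rw [norm_mul, Complex.norm_real, Real.norm_eq_abs]
    split_ifs with h
    · exact mul_le_of_le_one_left (norm_nonneg _) (hψ1 _)
    · rw [hψ2 _ ?_, abs_zero, zero_mul]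
      rw [le_div_iff₀ hY0]
      push Not at h
      exact h.le
  · refine (norm_sum_le _ _).trans ?_
    rw [Finset.mul_sum]
    calc ∑ q ∈ S, ‖(((ψ (nr (sp Z (up c q l)) / Y) -
          ψ (nr (sp Z c) * (∏ k, g (ixx g (nm (q k)))) / Y) : ℝ) : ℂ)) * F (up c q l)‖
        ≤ ∑ q ∈ S, 2 ^ (m + 1) * δ *
          (if nr (sp Z (up c q l)) ≤ 2 ^ (m + 1) * Y then ‖F (up c q l)‖ else 0) := by
          refine Finset.sum_le_sum fun q hq => ?_
          rw [norm_mul, Complex.norm_real, Real.norm_eq_abs]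
          have h2 := hcorner q hq
          split_ifs at h2 ⊢ with h3
          · exact mul_le_mul_of_nonneg_right h2 (norm_nonneg _)
          · have h4 := mul_le_mul_of_nonneg_right h2 (norm_nonneg (F (up c q l)))
            rw [zero_mul] at h4
            rw [mul_zero]
            exact h4
      _ ≤ _ := by
          refine Finset.sum_le_sum_of_subset_of_nonneg ?_ fun q _ _ => ?_
          · rw [hS]
            exact Finset.filter_subset _ _
          · split_ifs
            · positivity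
            · rw [mul_zero]

/-- from boxes to sums over configurations with a Lipschitz cut-off -/
theorem bad (Λ : Type) [Fintype Λ] (m : ℕ) (b A ε : ℝ) (hb : 0 ≤ b) (hA : 0 ≤ A) (_hε : 0 < ε) :
    ∃ C₁ A' C : ℝ, 3 ≤ C₁ ∧ 0 ≤ A' ∧ 0 < C ∧ ∀ Y : ℝ, 3 ≤ Y →
      ∀ (Z : Finset (Pl K)) (W : Pl K → Prop), (∀ v, W v → Real.exp (Real.log Y ^ ε) < nm v) →
      ∀ (l : Fin m → Λ) (Φ : (Λ → ℕ) → ℂ), (∀ ν, ‖Φ ν‖ ≤ 1) →
        (∀ ν, Φ ν ≠ 0 → ∀ k, m ≤ ν (l k)) →
      ∀ ψ : ℝ → ℝ, (∀ t, |ψ t| ≤ 1) → (∀ t, 2 ≤ t → ψ t = 0) → (∀ s t, |ψ s - ψ t| ≤ |s - t|) →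
      ∀ F : (Pl K → Option Λ) → ℂ, (∀ c ∈ Cf Z Λ, ‖F c‖ ≤ b ^ (sp Z c).card) →
      (∀ lo hi : Fin m → ℝ, (∀ k, Real.exp (Real.log Y ^ ε) ≤ lo k ∧ lo k ≤ hi k ∧
          hi k ≤ 2 * lo k ∧ hi k ≤ Y ^ C₁) →
        ∑ c ∈ (Cf Z Λ).filter (fun c => nr (sp Z c) ≤ Y ^ C₁ ∧
            ((sp Z c).card : ℝ) ≤ C₁ * (1 + Real.log (Real.log Y))),
          (nr (sp Z c))⁻¹ * (∏ k, lo k)⁻¹ * ‖∑ q ∈ (Fr Z W c m).filter
            (fun q => ∀ k, lo k < nm (q k) ∧ (nm (q k) : ℝ) ≤ hi k), F (up c q l)‖ ≤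
          Real.log Y ^ (-A')) →
      ‖∑ c ∈ Cf Z Λ, Φ (ct Z W c) * ((ψ (nr (sp Z c) / Y) : ℝ) : ℂ) * F c‖ ≤
        C * Y * Real.log Y ^ (-A) := by
  obtain ⟨B, Cr, hB, hCr, hr⟩ := cnt_ran K Λ b hb A
  obtain ⟨Cp, Ap, hCp, hAp, hp⟩ := cnt_pow K Λ (b * Real.exp 1) (mul_nonneg hb (Real.exp_pos _).le)
  refine ⟨2 * B + 3, A + m * (1 + A + Ap), 2 * Cr + 2 * 5 ^ m +
    2 ^ (m + 1) * (m.factorial * (Cp * 2 ^ (m + 1) * (m + 3) ^ Ap)), by linarith, by positivity,
    by positivity, ?_⟩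
  intro Y hY Z W hW l Φ hΦ1 hΦ ψ hψ1 hψ2 hψ3 F hF hbox
  have hY0 : (0 : ℝ) < Y := by linarith
  obtain ⟨ℓ, hℓ⟩ : ∃ ℓ, ℓ = Real.log Y := ⟨_, rfl⟩
  have hl1 : 1 ≤ ℓ := by
    rw [hℓ, Real.le_log_iff_exp_le hY0]
    exact (Real.exp_one_lt_d9.le.trans (by norm_num)).trans hY
  have hl0 : 0 < ℓ := by linarith
  rw [← hℓ] at hbox hW ⊢
  have hll : 0 ≤ Real.log ℓ := Real.log_nonneg hl1
  obtain ⟨T, hT⟩ : ∃ T, T = Real.exp (ℓ ^ ε) := ⟨_, rfl⟩
  rw [← hT] at hbox hW
  have hT1 : 1 ≤ T := by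
    rw [hT]
    exact Real.one_le_exp (by positivity)
  obtain ⟨δ, hδ⟩ : ∃ δ, δ = ℓ ^ (-(A + Ap)) := ⟨_, rfl⟩
  have hδ0 : 0 < δ := by
    rw [hδ]
    positivity
  have hδ1 : δ ≤ 1 := by
    rw [hδ]
    exact Real.rpow_le_one_of_one_le_of_nonpos hl1 (by linarith)
  obtain ⟨J, hJ1, hJ2⟩ := grid Y ℓ δ T hY hℓ hδ0 hδ1 hT1
  -- truncation of the number of places
  obtain ⟨B₂, hB₂⟩ : ∃ B₂, B₂ = 2 * B * (1 + Real.log ℓ) := ⟨_, rfl⟩
  obtain ⟨F₁, hF₁⟩ : ∃ F₁ : (Pl K → Option Λ) → ℂ, F₁ = fun c =>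
    if ((sp Z c).card : ℝ) ≤ B₂ then F c else 0 := ⟨_, rfl⟩
  have hF₁b : ∀ c ∈ Cf Z Λ, ‖F₁ c‖ ≤ b ^ (sp Z c).card := by
    intro c hc
    rw [hF₁]
    beta_reduce
    split_ifs
    · exact hF c hc
    · rw [norm_zero]
      positivity
  have hψn : ∀ t, ‖((ψ t : ℝ) : ℂ)‖ ≤ 1 := fun t => by
    rw [Complex.norm_real, Real.norm_eq_abs]
    exact hψ1 t
  have htail : ‖∑ c ∈ Cf Z Λ, Φ (ct Z W c) * ((ψ (nr (sp Z c) / Y) : ℝ) : ℂ) * (F c - F₁ c)‖ ≤
      2 * Cr * Y * ℓ ^ (-A) := by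
    refine (norm_sum_le _ _).trans ?_
    have h2 : ∀ c ∈ Cf Z Λ, ‖Φ (ct Z W c) * ((ψ (nr (sp Z c) / Y) : ℝ) : ℂ) * (F c - F₁ c)‖ ≤
        if (nr (sp Z c) ≤ 2 * Y ∧ B * (1 + Real.log (Real.log (2 * Y))) < ((sp Z c).card : ℝ))
          then b ^ (sp Z c).card else 0 := by
      intro c hc
      rw [norm_mul, norm_mul]
      by_cases h3 : nr (sp Z c) ≤ 2 * Y
      · by_cases h4 : ((sp Z c).card : ℝ) ≤ B₂
        · rw [hF₁]
          beta_reduce
          rw [if_pos h4, sub_self, norm_zero, mul_zero]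
          split_ifs
          · positivity
          · exact le_rfl
        · rw [hF₁]
          beta_reduce
          rw [if_neg h4, sub_zero, if_pos]
          · calc ‖Φ (ct Z W c)‖ * ‖((ψ (nr (sp Z c) / Y) : ℝ) : ℂ)‖ * ‖F c‖
                ≤ 1 * 1 * b ^ (sp Z c).card :=
                  mul_le_mul (mul_le_mul (hΦ1 _) (hψn _) (norm_nonneg _) zero_le_one) (hF c hc)
                    (norm_nonneg _) (by norm_num)
              _ = b ^ (sp Z c).card := by ring
          · refine ⟨h3, lt_of_le_of_lt ?_ (not_le.1 h4)⟩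
            rw [hB₂]
            have h5 : Real.log (2 * Y) ≤ 2 * ℓ := by
              rw [Real.log_mul (by norm_num) hY0.ne', ← hℓ]
              have h := Real.log_two_lt_d9
              linarith
            have h6 : Real.log (Real.log (2 * Y)) ≤ 1 + Real.log ℓ := by
              refine (Real.log_le_log (Real.log_pos (by linarith)) h5).trans ?_
              rw [Real.log_mul (by norm_num) hl0.ne']
              have h := Real.log_two_lt_d9
              linarith
            nlinarith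
      · rw [hψ2 _ ?_]
        · rw [Complex.ofReal_zero, norm_zero, mul_zero, zero_mul]
          split_ifs
          · positivity
          · exact le_rfl
        · rw [le_div_iff₀ hY0]
          push Not at h3
          exact h3.le
    refine (Finset.sum_le_sum h2).trans ?_
    rw [← Finset.sum_filter]
    refine (hr Z (2 * Y) (by linarith)).1.trans ?_
    have h3 : Real.log (2 * Y) ^ (-A) ≤ ℓ ^ (-A) := by
      refine Real.rpow_le_rpow_of_nonpos hl0 ?_ (by linarith)
      rw [hℓ]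
      exact Real.log_le_log hY0 (by linarith)
    calc Cr * (2 * Y) * Real.log (2 * Y) ^ (-A) ≤ Cr * (2 * Y) * ℓ ^ (-A) :=
          mul_le_mul_of_nonneg_left h3 (by positivity)
      _ = 2 * Cr * Y * ℓ ^ (-A) := by ring
  -- insertion
  obtain ⟨Φ', hΦ', hins⟩ := cf_sym Z W m l Φ hΦ
  have hΦ'1 : ∀ ν, ‖Φ' ν‖ ≤ 1 := fun ν => (hΦ' ν).trans (hΦ1 _)
  have hmain : ‖∑ c ∈ Cf Z Λ, Φ (ct Z W c) * ((ψ (nr (sp Z c) / Y) : ℝ) : ℂ) * F₁ c‖ ≤
      (2 * 5 ^ m + 2 ^ (m + 1) * (m.factorial * (Cp * 2 ^ (m + 1) * (m + 3) ^ Ap))) * Y *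
        ℓ ^ (-A) := by
    have h2 : ∑ c ∈ Cf Z Λ, Φ (ct Z W c) * ((ψ (nr (sp Z c) / Y) : ℝ) : ℂ) * F₁ c =
        ∑ c ∈ Cf Z Λ, Φ' (ct Z W c) * ∑ q ∈ Fr Z W c m,
          ((ψ (nr (sp Z (up c q l)) / Y) : ℝ) : ℂ) * F₁ (up c q l) := by
      rw [← hins fun c => ((ψ (nr (sp Z c) / Y) : ℝ) : ℂ) * F₁ c]
      exact Finset.sum_congr rfl fun c _ => mul_assoc _ _ _
    rw [h2]
    refine (norm_sum_le _ _).trans ?_
    have h3 : ∀ c ∈ Cf Z Λ, ‖Φ' (ct Z W c) * ∑ q ∈ Fr Z W c m,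
          ((ψ (nr (sp Z (up c q l)) / Y) : ℝ) : ℂ) * F₁ (up c q l)‖ ≤
        (∑ j ∈ (Fintype.piFinset fun _ : Fin m => Finset.range J).filter
            (fun j => nr (sp Z c) * ∏ k, T * (1 + δ) ^ j k ≤ 2 * Y),
          ‖∑ q ∈ (Fr Z W c m).filter (fun q => ∀ k, T * (1 + δ) ^ j k < nm (q k) ∧
            (nm (q k) : ℝ) ≤ T * (1 + δ) ^ (j k + 1)), F₁ (up c q l)‖) +
        2 ^ (m + 1) * δ * ∑ q ∈ Fr Z W c m,
          (if nr (sp Z (up c q l)) ≤ 2 ^ (m + 1) * Y then ‖F₁ (up c q l)‖ else 0) := by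
      intro c _
      rw [norm_mul]
      refine (mul_le_of_le_one_left (norm_nonneg _) (hΦ'1 _)).trans ?_
      exact one_conf K Λ m Z W Y T δ hY hT1 hδ0 hδ1 hW J hJ2 l ψ hψ1 hψ2 hψ3 F₁ c
    refine (Finset.sum_le_sum h3).trans ?_
    rw [Finset.sum_add_distrib, ← Finset.mul_sum]
    -- the error term
    have herr : ∑ c ∈ Cf Z Λ, ∑ q ∈ Fr Z W c m,
          (if nr (sp Z (up c q l)) ≤ 2 ^ (m + 1) * Y then ‖F₁ (up c q l)‖ else 0) ≤
        m.factorial * (Cp * 2 ^ (m + 1) * (m + 3) ^ Ap) * Y * ℓ ^ Ap := by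
      have h4 : ∑ c ∈ Cf Z Λ, ∑ q ∈ Fr Z W c m,
          (if nr (sp Z (up c q l)) ≤ 2 ^ (m + 1) * Y then ‖F₁ (up c q l)‖ else 0) ≤
          ∑ c ∈ Cf Z Λ, ((sp Z c).card : ℝ) ^ m *
            (if nr (sp Z c) ≤ 2 ^ (m + 1) * Y then b ^ (sp Z c).card else 0) := by
        have h5 := rev Z W m l (fun c =>
          if nr (sp Z c) ≤ 2 ^ (m + 1) * Y then ‖F₁ c‖ else 0) fun c => by
            beta_reduce
            split_ifs
            · exact norm_nonneg _
            · exact le_rfl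
        refine h5.trans (Finset.sum_le_sum fun c hc => mul_le_mul_of_nonneg_left ?_ (by positivity))
        split_ifs
        · exact hF₁b c hc
        · exact le_rfl
      refine h4.trans ?_
      have h6 : ∀ c ∈ Cf Z Λ, ((sp Z c).card : ℝ) ^ m *
            (if nr (sp Z c) ≤ 2 ^ (m + 1) * Y then b ^ (sp Z c).card else 0) ≤
          m.factorial * (if nr (sp Z c) ≤ 2 ^ (m + 1) * Y then
            (b * Real.exp 1) ^ (sp Z c).card else 0) := by
        intro c _
        split_ifs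
        · have h7 : ((sp Z c).card : ℝ) ^ m ≤ m.factorial * Real.exp 1 ^ (sp Z c).card := by
            have h8 := Real.pow_div_factorial_le_exp ((sp Z c).card : ℝ) (Nat.cast_nonneg _) m
            rw [div_le_iff₀ (by positivity)] at h8
            rw [← Real.exp_nat_mul, mul_one, mul_comm]
            exact h8
          calc ((sp Z c).card : ℝ) ^ m * b ^ (sp Z c).card
              ≤ (m.factorial * Real.exp 1 ^ (sp Z c).card) * b ^ (sp Z c).card :=
                mul_le_mul_of_nonneg_right h7 (by positivity)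
            _ = m.factorial * (b * Real.exp 1) ^ (sp Z c).card := by
                rw [mul_pow]
                ring
        · rw [mul_zero, mul_zero]
      refine (Finset.sum_le_sum h6).trans ?_
      rw [← Finset.mul_sum, ← Finset.sum_filter]
      have h9 : (1 : ℝ) ≤ 2 ^ (m + 1) := one_le_pow₀ (by norm_num)
      have h10 := (hp Z (2 ^ (m + 1) * Y) (by nlinarith)).1
      have h11 : 1 + Real.log (2 ^ (m + 1) * Y) ≤ (m + 3) * ℓ := by
        rw [Real.log_mul (by positivity) hY0.ne', Real.log_pow, ← hℓ]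
        have h12 : Real.log 2 ≤ 1 := by
          have := Real.log_two_lt_d9
          linarith
        have h13 : ((m + 1 : ℕ) : ℝ) * Real.log 2 ≤ (m + 1) * ℓ := by
          push_cast
          exact mul_le_mul_of_nonneg_left (by linarith) (by positivity)
        nlinarith
      have h14 : (1 + Real.log (2 ^ (m + 1) * Y)) ^ Ap ≤ (m + 3) ^ Ap * ℓ ^ Ap := by
        rw [← Real.mul_rpow (by positivity) hl0.le]
        refine Real.rpow_le_rpow ?_ h11 hAp
        have h15 : 0 ≤ Real.log (2 ^ (m + 1) * Y) := Real.log_nonneg (by nlinarith)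
        linarith
      calc (m.factorial : ℝ) * ∑ c ∈ (Cf Z Λ).filter (fun c => nr (sp Z c) ≤ 2 ^ (m + 1) * Y),
              (b * Real.exp 1) ^ (sp Z c).card
          ≤ m.factorial * (Cp * (2 ^ (m + 1) * Y) * (1 + Real.log (2 ^ (m + 1) * Y)) ^ Ap) :=
            mul_le_mul_of_nonneg_left h10 (by positivity)
        _ ≤ m.factorial * (Cp * (2 ^ (m + 1) * Y) * ((m + 3) ^ Ap * ℓ ^ Ap)) :=
            mul_le_mul_of_nonneg_left (mul_le_mul_of_nonneg_left h14 (by positivity))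
              (by positivity)
        _ = m.factorial * (Cp * 2 ^ (m + 1) * (m + 3) ^ Ap) * Y * ℓ ^ Ap := by ring
    have herr2 : 2 ^ (m + 1) * δ * ∑ c ∈ Cf Z Λ, ∑ q ∈ Fr Z W c m,
          (if nr (sp Z (up c q l)) ≤ 2 ^ (m + 1) * Y then ‖F₁ (up c q l)‖ else 0) ≤
        2 ^ (m + 1) * (m.factorial * (Cp * 2 ^ (m + 1) * (m + 3) ^ Ap)) * Y * ℓ ^ (-A) := by
      refine (mul_le_mul_of_nonneg_left herr (by positivity)).trans (le_of_eq ?_)
      have h4 : δ * ℓ ^ Ap = ℓ ^ (-A) := by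
        rw [hδ, ← Real.rpow_add hl0]
        congr 1
        ring
      rw [← h4]
      ring
    -- the boxes
    have hbx : ∑ c ∈ Cf Z Λ, ∑ j ∈ (Fintype.piFinset fun _ : Fin m => Finset.range J).filter
            (fun j => nr (sp Z c) * ∏ k, T * (1 + δ) ^ j k ≤ 2 * Y),
          ‖∑ q ∈ (Fr Z W c m).filter (fun q => ∀ k, T * (1 + δ) ^ j k < nm (q k) ∧
            (nm (q k) : ℝ) ≤ T * (1 + δ) ^ (j k + 1)), F₁ (up c q l)‖ ≤
        2 * 5 ^ m * Y * ℓ ^ (-A) := by
      have h30 : ∀ c ∈ Cf Z Λ, ∑ j ∈ (Fintype.piFinset fun _ : Fin m => Finset.range J).filter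
            (fun j => nr (sp Z c) * ∏ k, T * (1 + δ) ^ j k ≤ 2 * Y),
          ‖∑ q ∈ (Fr Z W c m).filter (fun q => ∀ k, T * (1 + δ) ^ j k < nm (q k) ∧
            (nm (q k) : ℝ) ≤ T * (1 + δ) ^ (j k + 1)), F₁ (up c q l)‖ =
          ∑ j ∈ Fintype.piFinset fun _ : Fin m => Finset.range J,
            (if nr (sp Z c) * ∏ k, T * (1 + δ) ^ j k ≤ 2 * Y then
            ‖∑ q ∈ (Fr Z W c m).filter (fun q => ∀ k, T * (1 + δ) ^ j k < nm (q k) ∧
              (nm (q k) : ℝ) ≤ T * (1 + δ) ^ (j k + 1)), F₁ (up c q l)‖ else 0) := by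
        intro c _
        rw [Finset.sum_filter]
      rw [Finset.sum_congr rfl h30, Finset.sum_comm]
      have h4 : ∀ j ∈ Fintype.piFinset fun _ : Fin m => Finset.range J,
          ∑ c ∈ Cf Z Λ, (if nr (sp Z c) * ∏ k, T * (1 + δ) ^ j k ≤ 2 * Y then
            ‖∑ q ∈ (Fr Z W c m).filter (fun q => ∀ k, T * (1 + δ) ^ j k < nm (q k) ∧
              (nm (q k) : ℝ) ≤ T * (1 + δ) ^ (j k + 1)), F₁ (up c q l)‖ else 0) ≤
          2 * Y * ℓ ^ (-(A + m * (1 + A + Ap))) := by
        intro j _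
        have hpos : ∀ i : ℕ, 1 ≤ T * (1 + δ) ^ i := fun i =>
          one_le_mul_of_one_le_of_one_le hT1 (one_le_pow₀ (by linarith))
        have hprod : 1 ≤ ∏ k, T * (1 + δ) ^ j k := Finset.one_le_prod fun k _ => hpos _
        by_cases h5 : ∏ k, T * (1 + δ) ^ j k ≤ 2 * Y
        · have h6 : ∀ k, T ≤ T * (1 + δ) ^ j k ∧ T * (1 + δ) ^ j k ≤ T * (1 + δ) ^ (j k + 1) ∧
              T * (1 + δ) ^ (j k + 1) ≤ 2 * (T * (1 + δ) ^ j k) ∧
              T * (1 + δ) ^ (j k + 1) ≤ Y ^ (2 * B + 3) := by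
            intro k
            have h7 : 1 ≤ (1 + δ) ^ j k := one_le_pow₀ (by linarith)
            have h8 : T * (1 + δ) ^ (j k + 1) = (1 + δ) * (T * (1 + δ) ^ j k) := by
              rw [pow_succ]
              ring
            have h9 : T * (1 + δ) ^ j k ≤ ∏ k, T * (1 + δ) ^ j k := by
              rw [← Finset.mul_prod_erase Finset.univ (fun k => T * (1 + δ) ^ j k)
                (Finset.mem_univ k)]
              refine le_mul_of_one_le_right (by linarith [hpos (j k)]) ?_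
              exact Finset.one_le_prod fun i _ => hpos _
            have h10 := hpos (j k)
            refine ⟨le_mul_of_one_le_right (by linarith) h7, ?_, ?_, ?_⟩
            · rw [h8]
              exact le_mul_of_one_le_left (by linarith) (by linarith)
            · rw [h8]
              exact mul_le_mul_of_nonneg_right (by linarith) (by linarith)
            · have h11 : T * (1 + δ) ^ (j k + 1) ≤ 4 * Y := by
                rw [h8]
                nlinarith
              refine h11.trans ?_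
              have h12 : Y ^ (3 : ℝ) ≤ Y ^ (2 * B + 3) :=
                Real.rpow_le_rpow_of_exponent_le (by linarith) (by linarith)
              refine le_trans ?_ h12
              have h13 : Y ^ (3 : ℝ) = Y ^ 3 := by
                exact_mod_cast Real.rpow_natCast Y 3
              rw [h13]
              nlinarith [mul_nonneg hY0.le (sq_nonneg (Y - 2)), sq_nonneg (Y - 2)]
          have h14 := hbox (fun k => T * (1 + δ) ^ j k) (fun k => T * (1 + δ) ^ (j k + 1)) h6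
          beta_reduce at h14
          have h15 : ∀ c ∈ Cf Z Λ, (if nr (sp Z c) * ∏ k, T * (1 + δ) ^ j k ≤ 2 * Y then
              ‖∑ q ∈ (Fr Z W c m).filter (fun q => ∀ k, T * (1 + δ) ^ j k < nm (q k) ∧
                (nm (q k) : ℝ) ≤ T * (1 + δ) ^ (j k + 1)), F₁ (up c q l)‖ else 0) ≤
              2 * Y * (if nr (sp Z c) ≤ Y ^ (2 * B + 3) ∧
                ((sp Z c).card : ℝ) ≤ (2 * B + 3) * (1 + Real.log ℓ) then
                (nr (sp Z c))⁻¹ * (∏ k, T * (1 + δ) ^ j k)⁻¹ *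
                ‖∑ q ∈ (Fr Z W c m).filter (fun q => ∀ k, T * (1 + δ) ^ j k < nm (q k) ∧
                  (nm (q k) : ℝ) ≤ T * (1 + δ) ^ (j k + 1)), F (up c q l)‖ else 0) := by
            intro c _
            have hn1 : 1 ≤ nr (sp Z c) := one_le_nr _
            by_cases h16 : nr (sp Z c) * ∏ k, T * (1 + δ) ^ j k ≤ 2 * Y
            · rw [if_pos h16]
              by_cases h17 : ((sp Z c).card : ℝ) + m ≤ B₂
              · have h18 : ∀ q ∈ (Fr Z W c m).filter (fun q => ∀ k, T * (1 + δ) ^ j k < nm (q k) ∧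
                    (nm (q k) : ℝ) ≤ T * (1 + δ) ^ (j k + 1)), F₁ (up c q l) = F (up c q l) := by
                  intro q hq
                  rw [Finset.mem_filter] at hq
                  rw [hF₁]
                  beta_reduce
                  rw [if_pos]
                  rw [sp_up_card Z W c q l hq.1]
                  push_cast
                  exact h17
                rw [Finset.sum_congr rfl h18, if_pos]
                · have h19 : 1 ≤ 2 * Y * ((nr (sp Z c))⁻¹ * (∏ k, T * (1 + δ) ^ j k)⁻¹) := by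
                    rw [← mul_inv, ← div_eq_mul_inv, one_le_div (by positivity)]
                    exact h16
                  calc ‖∑ q ∈ (Fr Z W c m).filter (fun q => ∀ k, T * (1 + δ) ^ j k < nm (q k) ∧
                        (nm (q k) : ℝ) ≤ T * (1 + δ) ^ (j k + 1)), F (up c q l)‖
                      ≤ (2 * Y * ((nr (sp Z c))⁻¹ * (∏ k, T * (1 + δ) ^ j k)⁻¹)) *
                        ‖∑ q ∈ (Fr Z W c m).filter (fun q => ∀ k, T * (1 + δ) ^ j k < nm (q k) ∧
                        (nm (q k) : ℝ) ≤ T * (1 + δ) ^ (j k + 1)), F (up c q l)‖ :=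
                        le_mul_of_one_le_left (norm_nonneg _) h19
                    _ = _ := by ring
                · constructor
                  · have h20 : nr (sp Z c) ≤ 2 * Y := by
                      refine le_trans ?_ h16
                      exact le_mul_of_one_le_right (by linarith) hprod
                    refine h20.trans ?_
                    have h12 : Y ^ (3 : ℝ) ≤ Y ^ (2 * B + 3) :=
                      Real.rpow_le_rpow_of_exponent_le (by linarith) (by linarith)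
                    refine le_trans ?_ h12
                    have h13 : Y ^ (3 : ℝ) = Y ^ 3 := by
                      exact_mod_cast Real.rpow_natCast Y 3
                    rw [h13]
                    nlinarith [mul_nonneg hY0.le (sq_nonneg (Y - 2)), sq_nonneg (Y - 2)]
                  · rw [hB₂] at h17
                    have h21 : (0 : ℝ) ≤ m := Nat.cast_nonneg _
                    nlinarith
              · have h18 : ∀ q ∈ (Fr Z W c m).filter (fun q => ∀ k, T * (1 + δ) ^ j k < nm (q k) ∧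
                    (nm (q k) : ℝ) ≤ T * (1 + δ) ^ (j k + 1)), F₁ (up c q l) = 0 := by
                  intro q hq
                  rw [Finset.mem_filter] at hq
                  rw [hF₁]
                  beta_reduce
                  rw [if_neg]
                  rw [sp_up_card Z W c q l hq.1]
                  push_cast
                  exact h17
                rw [Finset.sum_eq_zero h18, norm_zero]
                refine mul_nonneg (by linarith) ?_
                split_ifs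
                · positivity
                · exact le_rfl
            · rw [if_neg h16]
              refine mul_nonneg (by linarith) ?_
              split_ifs
              · positivity
              · exact le_rfl
          refine (Finset.sum_le_sum h15).trans ?_
          rw [← Finset.mul_sum, ← Finset.sum_filter]
          exact mul_le_mul_of_nonneg_left h14 (by linarith)
        · rw [Finset.sum_eq_zero]
          · positivity
          · intro c _
            rw [if_neg]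
            intro h6
            refine h5 (le_trans ?_ h6)
            exact le_mul_of_one_le_left (by linarith) (one_le_nr _)
      refine (Finset.sum_le_sum h4).trans ?_
      rw [Finset.sum_const, nsmul_eq_mul, Fintype.card_piFinset, Finset.prod_const,
        Finset.card_univ, Fintype.card_fin, Finset.card_range]
      push_cast
      have h5 : (J : ℝ) ≤ 5 * ℓ ^ (1 + A + Ap) := by
        refine hJ1.trans (le_of_eq ?_)
        rw [hδ, Real.rpow_neg hl0.le, div_inv_eq_mul, mul_assoc]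
        congr 1
        rw [add_assoc 1 A Ap, Real.rpow_add hl0 1 (A + Ap), Real.rpow_one]
      have h6 : (J : ℝ) ^ m ≤ 5 ^ m * ℓ ^ (m * (1 + A + Ap)) := by
        refine (pow_le_pow_left₀ (Nat.cast_nonneg _) h5 m).trans (le_of_eq ?_)
        rw [mul_pow, ← Real.rpow_natCast (ℓ ^ (1 + A + Ap)), ← Real.rpow_mul hl0.le, mul_comm (1 + A + Ap)]
      calc (J : ℝ) ^ m * (2 * Y * ℓ ^ (-(A + m * (1 + A + Ap))))
          ≤ (5 ^ m * ℓ ^ (m * (1 + A + Ap))) * (2 * Y * ℓ ^ (-(A + m * (1 + A + Ap)))) :=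
            mul_le_mul_of_nonneg_right h6 (by positivity)
        _ = 2 * 5 ^ m * Y * (ℓ ^ (m * (1 + A + Ap)) * ℓ ^ (-(A + m * (1 + A + Ap)))) := by ring
        _ = 2 * 5 ^ m * Y * ℓ ^ (-A) := by
            rw [← Real.rpow_add hl0]
            congr 2
            ring
    refine (add_le_add hbx herr2).trans (le_of_eq ?_)
    ring
  have hall : ∑ c ∈ Cf Z Λ, Φ (ct Z W c) * ((ψ (nr (sp Z c) / Y) : ℝ) : ℂ) * F c =
      ∑ c ∈ Cf Z Λ, Φ (ct Z W c) * ((ψ (nr (sp Z c) / Y) : ℝ) : ℂ) * F₁ c +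
      ∑ c ∈ Cf Z Λ, Φ (ct Z W c) * ((ψ (nr (sp Z c) / Y) : ℝ) : ℂ) * (F c - F₁ c) := by
    rw [← Finset.sum_add_distrib]
    exact Finset.sum_congr rfl fun c _ => by ring
  rw [hall]
  refine (norm_add_le _ _).trans ((add_le_add hmain htail).trans (le_of_eq ?_))
  ring

end main

end H1.BD
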