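import Pool.Agent.H35.UB.Goo
import Pool.Agent.H1.BD.Bad

/-!
# [H1 BD UB] the boxes of the configurations of UB

* `lab_up`, `hs_up`: the labelling and the honest reduction after the insertion of places with labels in `N`. `om_up`: the product of the weights.
* `bxd`: the box of a configuration. `bxd_sum`: the sum over the variable places is the sum over the box. `bxd_cnt`: the number of configurations with
  given support.
-/

set_option autoImplicit false

open scoped NumberField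
open IsDedekindDomain
open scoped Classical

noncomputable section

namespace H1.BD

open H63.MA H38.BB H38.BG H57.PC H57.BRA H77.WD H77.WE H77.PC3 H35.CF H35.UB

section cmb

variable {V Λ : Type}

theorem om_up {M : Type} [CommMonoid M] (Z : Finset V) (W : V → Prop) {m : ℕ}
    (c : V → Option Λ) (q : Fin m → V) (l : Fin m → Λ) (hq : q ∈ Fr Z W c m) (a : V → Λ → M) :
    om Z a (up c q l) = (∏ v ∈ sp Z c, (c v).elim 1 (a v)) * ∏ k, a (q k) (l k) := by
  rw [om_sp]
  obtain ⟨h1, h2⟩ := sp_up Z W c q l hq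
  rw [h1, Finset.prod_union h2, Finset.prod_image fun i _ j _ h => (mem_fr.1 hq).2 h]
  congr 1
  · refine Finset.prod_congr rfl fun v hv => ?_
    rw [up_ne c q l v]
    rintro k rfl
    exact (mem_sp.1 hv).2 ((mem_fr.1 hq).1 k).2.2
  · refine Finset.prod_congr rfl fun k _ => ?_
    rw [up_of c q l (mem_fr.1 hq).2 k]
    rfl

theorem cnt_sp [Fintype Λ] (Z t : Finset V) :
    ((Cf Z Λ).filter fun c => sp Z c = t).card ≤ Fintype.card Λ ^ t.card := by
  have h := cf_prod (R := ℕ) (Λ := Λ) Z (fun s => if s = t then 1 else 0) (fun _ _ => 1)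
  have h1 : ∀ c : V → Option Λ, om Z (fun _ _ => (1 : ℕ)) c = 1 := by
    intro c
    unfold om
    refine Finset.prod_eq_one fun v _ => ?_
    cases c v <;> rfl
  rw [Finset.card_filter]
  simp only [h1, mul_one] at h
  rw [h]
  simp only [Finset.sum_const, Finset.card_univ, smul_eq_mul, mul_one, Finset.prod_const]
  have h2 : ∀ s ∈ Z.powerset, (if s = t then 1 else 0) * Fintype.card Λ ^ s.card =
      if s = t then Fintype.card Λ ^ t.card else 0 := by
    intro s _
    split_ifs with h3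
    · rw [h3, one_mul]
    · rw [zero_mul]
  rw [Finset.sum_congr rfl h2, Finset.sum_ite_eq']
  split_ifs
  · exact le_rfl
  · exact Nat.zero_le _

end cmb

section grp

variable {K : Type} [Field K] [NumberField K] {Ω : Type} [Field Ω] [Algebra K Ω]
  {p : ℕ} {ζ : K} {D : RD0 K p ζ} {P : Type} [Group P] {Λ : Type}

theorem lab_up {m : ℕ} (E : Finset (Pl K)) (e : Pl K → P) (val : Λ → P) (c : Pl K → Option Λ)
    (q : Fin m → Pl K) (l : Fin m → Λ) (hE : ∀ k, q k ∉ E) (v : Pl K) :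
    lab E e val (up c q l) v = if h : ∃ k, q k = v then val (l h.choose) else lab E e val c v := by
  unfold lab up
  by_cases h : ∃ k, q k = v
  · have h1 : v ∉ E := by
      obtain ⟨k, rfl⟩ := h
      exact hE k
    rw [if_neg h1, dif_pos h, dif_pos h]
    rfl
  · rw [dif_neg h, dif_neg h]

theorem ev_quo (A : GS D Ω) (N : Subgroup P) [N.Normal] (g g' : Pl K → P) (α : Fin A.g → P)
    (h : ∀ v, (g v : P ⧸ N) = (g' v : P ⧸ N)) :
    (QuotientGroup.mk' N).comp (ev A g α) = (QuotientGroup.mk' N).comp (ev A g' α) := by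
  refine FreeGroup.ext_hom _ _ fun x => ?_
  rw [MonoidHom.comp_apply, MonoidHom.comp_apply]
  unfold ev
  rw [FreeGroup.lift_apply_of, FreeGroup.lift_apply_of]
  cases x with
  | inl v => exact h v
  | inr i => rfl

/-- the honest reduction does not see the places with labels in `N` -/
theorem hs_up (L : LDs D Ω) (A : GS D Ω) (E : Finset (Pl K)) (e : Pl K → P) (val : Λ → P)
    (N : Subgroup P) [N.Normal] (Z : Finset (Pl K)) (W : Pl K → Prop) {m : ℕ}
    (c : Pl K → Option Λ) (q : Fin m → Pl K) (l : Fin m → Λ) (hq : q ∈ Fr Z W c m)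
    (hE : ∀ k, q k ∉ E) (hN : ∀ k, val (l k) ∈ N) (α : Fin A.g → P) :
    Hs L A E N (sp Z (up c q l)) (ev A (lab E e val (up c q l)) α) ↔
      Hs L A E N (sp Z c) (ev A (lab E e val c) α) := by
  have hlab : ∀ v, ((lab E e val (up c q l) v : P) : P ⧸ N) = ((lab E e val c v : P) : P ⧸ N) := by
    intro v
    rw [lab_up E e val c q l hE]
    split_ifs with h
    · obtain ⟨k, rfl⟩ := h
      have h1 : lab E e val c (q k) = 1 := by
        unfold lab
        rw [if_neg (hE k), ((mem_fr.1 hq).1 k).2.2]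
        rfl
      rw [h1, (QuotientGroup.eq_one_iff _).2 (hN _)]
      rfl
    · rfl
  have hev := ev_quo A N _ _ α hlab
  have hmono : sp Z c ⊆ sp Z (up c q l) := by
    rw [(sp_up Z W c q l hq).1]
    exact Finset.subset_union_left
  constructor
  · rintro ⟨φ, h1, h2, h3⟩
    refine ⟨φ, ⟨h1.1, fun v hv he => ⟨(h1.2 v hv he).1, fun hz => ?_⟩⟩, h2, h3.trans hev⟩
    by_cases h4 : v ∈ sp Z (up c q l)
    · rw [(sp_up Z W c q l hq).1, Finset.mem_union, Finset.mem_image] at h4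
      rcases h4 with h4 | ⟨k, -, rfl⟩
      · exact absurd h4 hz
      · have h5 := DFunLike.congr_fun (h3.trans hev) (FreeGroup.of (Sum.inl (q k)))
        rw [hat_inl] at h5
        rw [h5, MonoidHom.comp_apply]
        unfold ev
        rw [FreeGroup.lift_apply_of]
        show ((lab E e val c (q k) : P) : P ⧸ N) = 1
        unfold lab
        rw [if_neg he, ((mem_fr.1 hq).1 k).2.2]
        rfl
    · exact (h1.2 v hv he).2 h4
  · rintro ⟨φ, h1, h2, h3⟩
    exact ⟨φ, h1.mono (Finset.Subset.refl E) hmono, h2, h3.trans hev.symm⟩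

end grp

section box

variable {K : Type} [Field K] [NumberField K] {Ω : Type} [Field Ω] [Algebra K Ω]
  {p : ℕ} [NeZero p] {ζ : K} {D : RD0 K p ζ} {P : Type} [Group P] [Fintype P] {Nc n : ℕ}
  {Λ : Type} [Fintype Λ]

/-- the box of a configuration -/
def bxd (S : LS Nc P Λ) (L : LDs D Ω) (A : GS D Ω) (N : Subgroup P) [N.Normal] (n : ℕ)
    (R : Finset (Fin Nc)) (T : ℝ) (Zw E : Finset (Pl K)) (e : Pl K → P) (W : Λ → P → ℝ) (b : ℝ)
    (lo hi : Fin (n + 2) → ℝ) (c : Pl K → Option (Le p Λ N n)) (α : Fin A.g → P) :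
    Bd A P N n where
  s := sp (Zg D Zw E) c ∪ E
  g := lab E e (fun x => S.val x.1) c
  α := α
  φ := if h : Hs L A E N (sp (Zg D Zw E) c) (ev A (lab E e (fun x => S.val x.1) c) α) then
    h.choose else 1
  G := fun v y => if v ∈ E then 1 else (c v).elim 1 fun x => we S N n R T W v x y / b
  lo := lo
  hi := hi

/-- the weights of the variable places -/
def bxk (N : Subgroup P) [N.Normal] (W : Λ → P → ℝ) (b : ℝ)
    (l : Fin (n + 2) → Le p Λ N n) (k : Fin (n + 2)) (y : P) : ℂ :=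
  (if (y : P ⧸ N) = (l k).2.1 then Wh N n (W (l k).1) (l k).2.2 y else 0) / b

theorem we_b {S : LS Nc P Λ} {N : Subgroup P} [N.Normal] {R : Finset (Fin Nc)} {T : ℝ}
    {W : Λ → P → ℝ} {b : ℝ} (hW : WOk p S N n R W b) (v : Pl K) (x : Le p Λ N n) (y : P) :
    ‖we S N n R T W v x y‖ ≤ b := by
  refine (we_le hW v x y).trans ?_
  split_ifs
  · exact (wav_bd hW _ _).2
  · exact (hW.mu0 _).2

theorem bxk_ok (S : LS Nc P Λ) (N : Subgroup P) [N.Normal] (hn : Nk N (n + 1) = ⊥)
    (R : Finset (Fin Nc)) (W : Λ → P → ℝ) (b : ℝ) (hW : WOk p S N n R W b)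
    (l : Fin (n + 2) → Le p Λ N n) :
    (∀ k x, ‖bxk N W b l k x‖ ≤ 1) ∧
    (∀ k x, bxk N W b l k x ≠ 0 → (x : P ⧸ N) = (tl S (l k)).f) ∧
    (∀ k x, ∀ u ∈ Nk N n, bxk N W b l k (x * u) = ep p ((tl S (l k)).χ u) * bxk N W b l k x) := by
  have hb0 : 0 < b := lt_of_lt_of_le one_pos hW.b1
  refine ⟨fun k x => ?_, fun k x h => ?_, fun k x u hu => ?_⟩
  · unfold bxk
    rw [norm_div, Complex.norm_real, Real.norm_of_nonneg hb0.le, div_le_one hb0]
    split_ifs
    · exact (wh_le N n _ (fun z => (hW.w0 _ z).1) _ _).trans (wav_bd hW _ _).2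
    · rw [norm_zero]
      exact hb0.le
  · by_contra h1
    apply h
    unfold bxk
    rw [if_neg (show ¬ (x : P ⧸ N) = (l k).2.1 from h1), zero_div]
  · have h1 : ((x * u : P) : P ⧸ N) = (x : P ⧸ N) := by
      refine QuotientGroup.eq.2 ?_
      rw [mul_inv_rev, mul_assoc, inv_mul_cancel, mul_one]
      exact N.inv_mem (nk_anti N (Nat.zero_le n) hu)
    unfold bxk
    rw [h1]
    by_cases h2 : (x : P ⧸ N) = (l k).2.1
    · rw [if_pos h2, if_pos h2, wh_mul N n hn _ _ _ _ hu, mul_div_assoc]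
      rfl
    · rw [if_neg h2, if_neg h2, zero_div, mul_zero]

theorem bxd_sum (S : LS Nc P Λ) (L : LDs D Ω) (A : GS D Ω) (Fb : FR L) (N : Subgroup P)
    [N.Normal] (R : Finset (Fin Nc)) (Mw : ℕ) (T : ℝ) (Zw E : Finset (Pl K)) (e : Pl K → P)
    (W : Λ → P → ℝ) (b : ℝ) (hb : 0 < b) (l : Fin (n + 2) → Le p Λ N n)
    (hl : ∀ k, S.cls (l k).1 ∈ R) (lo hi : Fin (n + 2) → ℝ) (hlo : ∀ k, T ≤ lo k)
    (c : Pl K → Option (Le p Λ N n)) (α : Fin A.g → P) :
    ∑ q ∈ (Fr (Zg D Zw E) (fun v => T < (nm v : ℝ)) c (n + 2)).filter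
        (fun q => ∀ k, lo k < nm (q k) ∧ (nm (q k) : ℝ) ≤ hi k),
      om (Zg D Zw E) (fun v x => we S N n R T W v x
        (ev A (lab E e (fun x => S.val x.1) (up c q l)) α (wdE L A Mw E Zw (Fb.F v)))) (up c q l) =
      (b : ℂ) ^ ((sp (Zg D Zw E) c).card + (n + 2)) *
        (bxd S L A N n R T Zw E e W b lo hi c α).sm Fb Mw E Zw (fun k => tl S (l k))
          (bxk N W b l) := by
  have hb' : (b : ℂ) ≠ 0 := by exact_mod_cast hb.ne'
  have hset : (Fr (Zg D Zw E) (fun v => T < (nm v : ℝ)) c (n + 2)).filter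
        (fun q => ∀ k, lo k < nm (q k) ∧ (nm (q k) : ℝ) ≤ hi k) =
      (bxd S L A N n R T Zw E e W b lo hi c α).bx Zw := by
    ext q
    unfold Bd.bx bxd
    dsimp only
    rw [Finset.mem_filter, mem_fr, Finset.mem_filter, Fintype.mem_piFinset]
    constructor
    · rintro ⟨⟨h1, h2⟩, h3⟩
      refine ⟨fun k => ?_, h2⟩
      obtain ⟨h4, h5, h6⟩ := h1 k
      unfold Zg at h4
      rw [Finset.mem_filter, Finset.mem_sdiff] at h4
      rw [Finset.mem_filter]
      refine ⟨h4.1.1, h4.2, fun h7 => ?_, (h3 k).1, (h3 k).2⟩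
      rw [Finset.mem_union, mem_sp] at h7
      rcases h7 with h7 | h7
      · exact h7.2 h6
      · exact h4.1.2 h7
    · rintro ⟨h1, h2⟩
      refine ⟨⟨fun k => ?_, h2⟩, fun k => ?_⟩
      · have h3 := h1 k
        rw [Finset.mem_filter] at h3
        obtain ⟨h4, h5, h6, h7, h8⟩ := h3
        rw [Finset.mem_union, mem_sp] at h6
        push Not at h6
        have h9 : q k ∈ Zg D Zw E := by
          unfold Zg
          rw [Finset.mem_filter, Finset.mem_sdiff]
          exact ⟨⟨h4, h6.2⟩, h5⟩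
        exact ⟨h9, (hlo k).trans_lt h7, h6.1 h9⟩
      · have h3 := h1 k
        rw [Finset.mem_filter] at h3
        exact h3.2.2.2
  unfold Bd.sm
  rw [← hset, Finset.mul_sum]
  refine Finset.sum_congr rfl fun q hq => ?_
  rw [Finset.mem_filter] at hq
  obtain ⟨hq1, hq2⟩ := hq
  have hqE : ∀ k, q k ∉ E := by
    intro k
    have h4 := ((mem_fr.1 hq1).1 k).1
    unfold Zg at h4
    rw [Finset.mem_filter, Finset.mem_sdiff] at h4
    exact h4.1.2
  have hth : (bxd S L A N n R T Zw E e W b lo hi c α).th (fun k => tl S (l k)) q =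
      ev A (lab E e (fun x => S.val x.1) (up c q l)) α := by
    unfold Bd.th bxd
    dsimp only
    congr 1
    funext v
    rw [lab_up E e (fun x : Le p Λ N n => S.val x.1) c q l hqE]
    rfl
  rw [hth, om_up _ _ c q l hq1]
  have hdis : Disjoint (sp (Zg D Zw E) c) E := by
    rw [Finset.disjoint_left]
    intro v h1 h2
    rw [mem_sp] at h1
    unfold Zg at h1
    rw [Finset.mem_filter, Finset.mem_sdiff] at h1
    exact h1.1.1.2 h2
  have h1 : ∏ v ∈ (bxd S L A N n R T Zw E e W b lo hi c α).s,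
      (bxd S L A N n R T Zw E e W b lo hi c α).G v
        (ev A (lab E e (fun x => S.val x.1) (up c q l)) α (wdE L A Mw E Zw (Fb.F v))) =
      (∏ v ∈ sp (Zg D Zw E) c, (c v).elim 1 fun x => we S N n R T W v x
        (ev A (lab E e (fun x => S.val x.1) (up c q l)) α (wdE L A Mw E Zw (Fb.F v)))) /
        (b : ℂ) ^ (sp (Zg D Zw E) c).card := by
    unfold bxd
    dsimp only
    rw [Finset.prod_union hdis, ← Finset.prod_const, ← Finset.prod_div_distrib]
    have h2 : ∏ v ∈ E, (if v ∈ E then (1 : ℂ) else (c v).elim 1 fun x => we S N n R T W v x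
        (ev A (lab E e (fun x => S.val x.1) (up c q l)) α (wdE L A Mw E Zw (Fb.F v))) / b) = 1 :=
      Finset.prod_eq_one fun v hv => if_pos hv
    rw [h2, mul_one]
    refine Finset.prod_congr rfl fun v hv => ?_
    have h3 : v ∉ E := fun h => Finset.disjoint_left.1 hdis hv h
    rw [if_neg h3]
    have h4 := (mem_sp.1 hv).2
    cases h5 : c v with
    | none => exact absurd h5 h4
    | some x => rfl
  have h2 : ∏ k, bxk N W b l k (ev A (lab E e (fun x => S.val x.1) (up c q l)) α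
        (wdE L A Mw E Zw (Fb.F (q k)))) =
      (∏ k, we S N n R T W (q k) (l k) (ev A (lab E e (fun x => S.val x.1) (up c q l)) α
        (wdE L A Mw E Zw (Fb.F (q k))))) / (b : ℂ) ^ (n + 2) := by
    rw [show (b : ℂ) ^ (n + 2) = ∏ _k : Fin (n + 2), (b : ℂ) by
      rw [Finset.prod_const, Finset.card_univ, Fintype.card_fin], ← Finset.prod_div_distrib]
    refine Finset.prod_congr rfl fun k _ => ?_
    unfold bxk we
    have h3 : RL S.cls R T (q k) (l k).1 := ⟨hl k, (hlo k).trans_lt (hq2 k).1⟩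
    rw [if_pos h3]
  rw [h1, h2, pow_add]
  field_simp


/-- the sum over the variable places for one configuration -/
theorem bxd_norm (S : LS Nc P Λ) (L : LDs D Ω) (A : GS D Ω) (Fb : FR L) (N : Subgroup P)
    [N.Normal] (R : Finset (Fin Nc)) (Mw : ℕ) (T : ℝ) (Zw E : Finset (Pl K)) (e : Pl K → P)
    (W : Λ → P → ℝ) (b : ℝ) (hb : 0 < b) (l : Fin (n + 2) → Le p Λ N n)
    (hl : ∀ k, S.cls (l k).1 ∈ R) (hN : ∀ k, S.val (l k).1 ∈ N)
    (lo hi : Fin (n + 2) → ℝ) (hlo : ∀ k, T ≤ lo k)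
    (c : Pl K → Option (Le p Λ N n)) :
    ‖∑ q ∈ (Fr (Zg D Zw E) (fun v => T < (nm v : ℝ)) c (n + 2)).filter
        (fun q => ∀ k, lo k < nm (q k) ∧ (nm (q k) : ℝ) ≤ hi k),
      ∑ α : Fin A.g → P, (if Hs L A E N (sp (Zg D Zw E) (up c q l))
          (ev A (lab E e (fun x => S.val x.1) (up c q l)) α) then
        om (Zg D Zw E) (fun v x => we S N n R T W v x
          (ev A (lab E e (fun x => S.val x.1) (up c q l)) α (wdE L A Mw E Zw (Fb.F v)))) (up c q l)
        else 0)‖ ≤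
      b ^ ((sp (Zg D Zw E) c).card + (n + 2)) *
        ∑ α : Fin A.g → P, (if Hs L A E N (sp (Zg D Zw E) c)
          (ev A (lab E e (fun x => S.val x.1) c) α) then
        ‖(bxd S L A N n R T Zw E e W b lo hi c α).sm Fb Mw E Zw (fun k => tl S (l k))
          (bxk N W b l)‖ else 0) := by
  rw [Finset.sum_comm, Finset.mul_sum]
  refine (norm_sum_le _ _).trans (Finset.sum_le_sum fun α _ => ?_)
  have h1 : ∀ q ∈ (Fr (Zg D Zw E) (fun v => T < (nm v : ℝ)) c (n + 2)).filter
        (fun q => ∀ k, lo k < nm (q k) ∧ (nm (q k) : ℝ) ≤ hi k),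
      (if Hs L A E N (sp (Zg D Zw E) (up c q l))
          (ev A (lab E e (fun x => S.val x.1) (up c q l)) α) then
        om (Zg D Zw E) (fun v x => we S N n R T W v x
          (ev A (lab E e (fun x => S.val x.1) (up c q l)) α (wdE L A Mw E Zw (Fb.F v)))) (up c q l)
        else 0) = if Hs L A E N (sp (Zg D Zw E) c)
          (ev A (lab E e (fun x => S.val x.1) c) α) then
        om (Zg D Zw E) (fun v x => we S N n R T W v x
          (ev A (lab E e (fun x => S.val x.1) (up c q l)) α (wdE L A Mw E Zw (Fb.F v)))) (up c q l)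
        else 0 := by
    intro q hq
    rw [Finset.mem_filter] at hq
    have h2 := hs_up L A E e (fun x : Le p Λ N n => S.val x.1) N (Zg D Zw E) _ c q l hq.1
      (fun k => by
        have h4 := ((mem_fr.1 hq.1).1 k).1
        unfold Zg at h4
        rw [Finset.mem_filter, Finset.mem_sdiff] at h4
        exact h4.1.2) hN α
    by_cases h3 : Hs L A E N (sp (Zg D Zw E) c) (ev A (lab E e (fun x => S.val x.1) c) α)
    · rw [if_pos h3, if_pos (h2.2 h3)]
    · rw [if_neg h3, if_neg fun h4 => h3 (h2.1 h4)]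
  rw [Finset.sum_congr rfl h1]
  by_cases h3 : Hs L A E N (sp (Zg D Zw E) c) (ev A (lab E e (fun x => S.val x.1) c) α)
  · simp only [if_pos h3]
    rw [bxd_sum S L A Fb N R Mw T Zw E e W b hb l hl lo hi hlo c α, norm_mul, norm_pow,
      Complex.norm_real, Real.norm_of_nonneg hb.le]
  · simp only [if_neg h3]
    rw [Finset.sum_const_zero, norm_zero, mul_zero]


/-- the box inequality for the family of all configurations -/
theorem bxd_fam (S : LS Nc P Λ) (L : LDs D Ω) (A : GS D Ω) (Fb : FR L) (N : Subgroup P)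
    [N.Normal] (hn : Nk N (n + 1) = ⊥) (R : Finset (Fin Nc)) (Mw : ℕ) (ε Y C C₁ A₀ : ℝ)
    (Zw E : Finset (Pl K)) (e : Pl K → P) (W : Λ → P → ℝ) (b : ℝ) (hW : WOk p S N n R W b)
    (l : Fin (n + 2) → Le p Λ N n)
    (hbl : BLb Fb A Mw N n C₁ A₀ ε Y (fun k => tl S (l k)))
    (hZ1 : ∀ v ∈ Zw, v ∉ D.S0) (hZ2 : ∀ v, D.Gd v → (nm v : ℝ) ≤ Y ^ C₁ → v ∈ Zw) (hE : E ⊆ Zw)
    (B : ℝ)
    (hnr : ∀ t : Finset (Pl K), nr t ≤ Y ^ C → nr (t ∪ E) ≤ Y ^ C₁)
    (hcd : ∀ t : Finset (Pl K), (t.card : ℝ) ≤ B →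
      ((t ∪ E).card : ℝ) ≤ C₁ * Real.log (Real.log Y))
    (hct : ∀ k : ℕ, (k : ℝ) ≤ B →
      (Fintype.card (Fin A.g → P) : ℝ) * (Fintype.card (Le p Λ N n) : ℝ) ^ k ≤ Real.log Y ^ C₁)
    (lo hi : Fin (n + 2) → ℝ)
    (hlh : ∀ k, T0 ε Y ≤ lo k ∧ lo k ≤ hi k ∧ hi k ≤ 2 * lo k ∧ hi k ≤ Y ^ C₁)
    (hlY : 0 ≤ Real.log Y) :
    ∑ c ∈ (Cf (Zg D Zw E) (Le p Λ N n)).filter (fun c => nr (sp (Zg D Zw E) c) ≤ Y ^ C ∧
        ((sp (Zg D Zw E) c).card : ℝ) ≤ B),
      ∑ α : Fin A.g → P, (if Hs L A E N (sp (Zg D Zw E) c)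
          (ev A (lab E e (fun x => S.val x.1) c) α) then
        (nr (sp (Zg D Zw E) c ∪ E))⁻¹ * (∏ k, lo k)⁻¹ *
        ‖(bxd S L A N n R (T0 ε Y) Zw E e W b lo hi c α).sm Fb Mw E Zw (fun k => tl S (l k))
          (bxk N W b l)‖ else 0) ≤ Real.log Y ^ (-A₀) := by
  obtain ⟨hk1, hk2, hk3⟩ := bxk_ok S N hn R W b hW l
  have hb0 : 0 < b := lt_of_lt_of_le one_pos hW.b1
  have hdis : ∀ c : Pl K → Option (Le p Λ N n), Disjoint (sp (Zg D Zw E) c) E := by
    intro c
    rw [Finset.disjoint_left]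
    intro v h1 h2
    rw [mem_sp] at h1
    unfold Zg at h1
    rw [Finset.mem_filter, Finset.mem_sdiff] at h1
    exact h1.1.1.2 h2
  obtain ⟨I, hI⟩ : ∃ I, I = (((Cf (Zg D Zw E) (Le p Λ N n)).filter
      (fun c => nr (sp (Zg D Zw E) c) ≤ Y ^ C ∧ ((sp (Zg D Zw E) c).card : ℝ) ≤ B)) ×ˢ
      (Finset.univ : Finset (Fin A.g → P))).filter (fun i => Hs L A E N (sp (Zg D Zw E) i.1)
          (ev A (lab E e (fun x => S.val x.1) i.1) i.2)) := ⟨_, rfl⟩
  have hmI : ∀ i ∈ I, (i.1 ∈ Cf (Zg D Zw E) (Le p Λ N n) ∧ nr (sp (Zg D Zw E) i.1) ≤ Y ^ C ∧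
      ((sp (Zg D Zw E) i.1).card : ℝ) ≤ B) ∧ Hs L A E N (sp (Zg D Zw E) i.1)
          (ev A (lab E e (fun x => S.val x.1) i.1) i.2) := by
    intro i hm
    rw [hI, Finset.mem_filter, Finset.mem_product, Finset.mem_filter] at hm
    exact ⟨hm.1.1, hm.2⟩
  have h := hbl (bxk N W b l) hk1 hk2 hk3 Zw E hZ1 hZ2 hE _ I
    (fun i => bxd S L A N n R (T0 ε Y) Zw E e W b lo hi i.1 i.2) ?_ ?_ ?_ ?_
  · refine le_trans (le_of_eq ?_) h
    rw [← Finset.sum_product', hI, Finset.sum_filter]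
    rfl
  · intro i hm
    obtain ⟨⟨h1, h2, h3⟩, -⟩ := hmI i hm
    refine ⟨Finset.subset_union_right, Finset.union_subset ?_ hE, hnr _ h2, hcd _ h3⟩
    intro v hv
    have h4 := (mem_sp.1 hv).1
    unfold Zg at h4
    rw [Finset.mem_filter, Finset.mem_sdiff] at h4
    exact h4.1.1
  · intro i hm
    obtain ⟨⟨h1, h2, h3⟩, h5⟩ := hmI i hm
    have hφ : (bxd S L A N n R (T0 ε Y) Zw E e W b lo hi i.1 i.2).φ = h5.choose := dif_pos h5
    refine ⟨?_, ?_, ?_, ?_, ?_⟩
    · intro v hv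
      show lab E e (fun x => S.val x.1) i.1 v = 1
      have hv' : v ∉ sp (Zg D Zw E) i.1 ∧ v ∉ E := by
        constructor
        · exact fun h6 => hv (Finset.mem_union_left _ h6)
        · exact fun h6 => hv (Finset.mem_union_right _ h6)
      have h6 : i.1 v = none := by
        by_contra h7
        by_cases h8 : v ∈ Zg D Zw E
        · exact hv'.1 (mem_sp.2 ⟨h8, h7⟩)
        · exact h7 (mem_cf.1 h1 v h8)
      unfold lab
      rw [if_neg hv'.2, h6]
      rfl
    · rw [hφ]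
      exact h5.choose_spec.1.mono (Finset.Subset.refl E) Finset.subset_union_left
    · rw [hφ]
      exact h5.choose_spec.2.1
    · rw [hφ]
      exact h5.choose_spec.2.2
    · intro v x
      show ‖(if v ∈ E then (1 : ℂ) else (i.1 v).elim 1 fun x' =>
        we S N n R (T0 ε Y) W v x' x / b)‖ ≤ 1
      split_ifs with h6
      · exact norm_one.le
      · cases h7 : i.1 v with
        | none => exact norm_one.le
        | some x' =>
          show ‖we S N n R (T0 ε Y) W v x' x / b‖ ≤ 1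
          rw [norm_div, Complex.norm_real, Real.norm_of_nonneg hb0.le, div_le_one hb0]
          exact we_b hW v x' x
  · intro i hm k
    exact hlh k
  · intro m
    have h1 : I.filter (fun i => (bxd S L A N n R (T0 ε Y) Zw E e W b lo hi i.1 i.2).s = m) ⊆
        ((Cf (Zg D Zw E) (Le p Λ N n)).filter fun c => sp (Zg D Zw E) c = m \ E) ×ˢ
          (Finset.univ : Finset (Fin A.g → P)) := by
      intro i hm
      rw [Finset.mem_filter] at hm
      rw [Finset.mem_product, Finset.mem_filter]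
      refine ⟨⟨(hmI i hm.1).1.1, ?_⟩, Finset.mem_univ _⟩
      have h2 : sp (Zg D Zw E) i.1 ∪ E = m := hm.2
      rw [← h2, Finset.union_sdiff_cancel_right (hdis i.1)]
    rcases (I.filter (fun i =>
      (bxd S L A N n R (T0 ε Y) Zw E e W b lo hi i.1 i.2).s = m)).eq_empty_or_nonempty with h2 | h2
    · rw [h2, Finset.card_empty, Nat.cast_zero]
      exact Real.rpow_nonneg hlY _
    · obtain ⟨i, hm⟩ := h2
      have h3 := (Finset.mem_filter.1 (Finset.mem_product.1 (h1 hm)).1).2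
      have h4 : ((m \ E).card : ℝ) ≤ B := by
        rw [← h3]
        exact (hmI i (Finset.mem_filter.1 hm).1).1.2.2
      refine le_trans ?_ (hct _ h4)
      have h5 := (Finset.card_le_card h1).trans (le_of_eq (Finset.card_product _ _))
      rw [Finset.card_univ] at h5
      have h6 := h5.trans (Nat.mul_le_mul_right _ (cnt_sp (Zg D Zw E) (m \ E)))
      rw [mul_comm] at h6
      exact_mod_cast h6

end box

theorem log_rpow_le (a : ℝ) : ∃ Y₀ : ℝ, ∀ Y : ℝ, Y₀ ≤ Y → Real.log Y ^ a ≤ Y := by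
  have h := (isLittleO_log_rpow_rpow_atTop a (one_pos : (0 : ℝ) < 1)).bound (one_pos : (0 : ℝ) < 1)
  rw [Filter.eventually_atTop] at h
  obtain ⟨Y₀, h⟩ := h
  refine ⟨max Y₀ 1, fun Y hY => ?_⟩
  have h1 := h Y ((le_max_left _ _).trans hY)
  have hY1 : 1 ≤ Y := (le_max_right _ _).trans hY
  rw [one_mul, Real.rpow_one, Real.norm_of_nonneg (Real.rpow_nonneg (Real.log_nonneg hY1) _),
    Real.norm_of_nonneg (by linarith)] at h1
  exact h1

theorem card_le_nr {K : Type} [Field K] [NumberField K] (E : Finset (Pl K)) :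
    (E.card : ℝ) * Real.log 2 ≤ Real.log (nr E) := by
  have h1 : (2 : ℝ) ^ E.card ≤ nr E := by
    unfold nr
    rw [← Finset.prod_const]
    refine Finset.prod_le_prod (fun _ _ => by norm_num) fun v _ => ?_
    have h2 : 2 ≤ nm v := one_lt_nm v
    exact_mod_cast h2
  have h2 := Real.log_le_log (by positivity) h1
  rwa [Real.log_pow] at h2

/-- a power with a logarithmic exponent -/
theorem pow_le_ll (b C ℓ : ℝ) (hb : 1 ≤ b) (hl : 0 < ℓ) (k : ℕ)
    (hk : (k : ℝ) ≤ C * (1 + Real.log ℓ)) :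
    b ^ k ≤ Real.exp (C * Real.log b) * ℓ ^ (C * Real.log b) := by
  have hb0 : 0 < b := by linarith
  have h1 : b ^ k = Real.exp (k * Real.log b) := by
    rw [Real.exp_nat_mul, Real.exp_log hb0]
  have h2 : ℓ ^ (C * Real.log b) = Real.exp (Real.log ℓ * (C * Real.log b)) :=
    Real.rpow_def_of_pos hl _
  rw [h1, h2, ← Real.exp_add, Real.exp_le_exp]
  have h3 := mul_le_mul_of_nonneg_right hk (Real.log_nonneg hb)
  linarith

end H1.BD
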